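import Pool.Agent.K4H92.ZO.Spec2
set_option autoImplicit false

/-!
# Known polyhedra, hidden objective: the number of types does not depend on the number of rows
-/

namespace Pool.Agent.K4H92.ZO

open Finset Pool.Agent.K4H92.LP Pool.Agent.K4H92.NO

/-- piece C -/
def TypesKnown : Prop :=
  ∀ (m n : ℕ) (κ : Type) [Fintype κ] (ζ : κ → Bool → Finset (Name m n)) (A : Fin m → Fin n → ℝ)
    (b : Fin m → ℝ), Switched ζ A b →
    ∃ R : Finset (Data m n), R.card ≤ 2 ^ (n * (2 * Fintype.card κ + 3)) ∧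
      (∀ h ∈ R, h.1 = A ∧ h.2.1 = b ∧ BddAbove (val h.2.2 '' polyhedron A b)) ∧
      ∀ c, BddAbove (val c '' polyhedron A b) → ∃ z' ∈ R, SameType (A, b, c) z'

end Pool.Agent.K4H92.ZO
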