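import Pool.Agent.K4H92.ZO.Main
import Pool.Agent.K4H92.ZO.Spec3
set_option autoImplicit false

/-!
# Blocks of constraints; known polyhedra
-/

namespace Pool.Agent.K4H92.ZO

open Finset Pool.Agent.K4H92.LP Pool.Agent.K4H92.NO

variable {m n : ℕ}

/-- at every vertex exactly one constraint of each block is not tight, and this determines the vertex -/
def Blocked {m n p : ℕ} (B : Fin p → Finset (Name m n)) (A : Fin m → Fin n → ℝ) (b : Fin m → ℝ) :
    Prop :=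
  (∀ x ∈ (polyhedron A b).extremePoints ℝ, ∀ i, ∃! ν, ν ∈ B i ∧ ν ∉ tightAt A b x) ∧
  ∀ x ∈ (polyhedron A b).extremePoints ℝ, ∀ y ∈ (polyhedron A b).extremePoints ℝ,
    (∀ i, ∀ ν ∈ B i, ν ∈ tightAt A b x ↔ ν ∈ tightAt A b y) → x = y

/-- the switches of the blocks -/
def sw {p : ℕ} (B : Fin p → Finset (Name m n)) (q : Σ i : Fin p, B i) (t : Bool) :
    Finset (Name m n) :=
  if t then (B q.1).erase q.2.1 else {q.2.1}

theorem switched_of_blocked {p : ℕ} {B : Fin p → Finset (Name m n)} {A : Fin m → Fin n → ℝ}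
    {b : Fin m → ℝ} (h : Blocked B A b) : Switched (sw B) A b := by
  have key : ∀ x ∈ (polyhedron A b).extremePoints ℝ, ∀ q : Σ i : Fin p, B i,
      (sw B q true ⊆ tightAt A b x ↔ q.2.1 ∉ tightAt A b x) := by
    intro x hx q
    obtain ⟨ν, ⟨h1, h2⟩, h3⟩ := h.1 x hx q.1
    simp only [sw, if_true]
    constructor
    · intro h4 h5
      by_cases h6 : ν = q.2.1
      · exact h2 (h6 ▸ h5)
      · exact h2 (h4 (mem_erase.2 ⟨h6, h1⟩))
    · intro h4 μ hμ
      by_contra h5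
      have h6 := h3 μ ⟨(mem_erase.1 hμ).2, h5⟩
      have h7 := h3 q.2.1 ⟨q.2.2, h4⟩
      exact (mem_erase.1 hμ).1 (h6.trans h7.symm)
  refine ⟨fun x hx q => ?_, fun x hx y hy hxy => h.2 x hx y hy fun i ν hν => ?_⟩
  · rw [key x hx q]
    simp [sw]
  · have h1 := hxy ⟨i, ν, hν⟩
    rw [key x hx, key y hy] at h1
    exact not_iff_not.1 h1

theorem card_sw {p : ℕ} (B : Fin p → Finset (Name m n)) :
    Fintype.card (Σ i : Fin p, B i) = ∑ i, (B i).card := by
  simp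

/-- the known polyhedron -/
theorem main_known (hT : TypesKnown) (hR : ∀ m n, RuleOn m n) (m n : ℕ) (κ : Type) [Fintype κ]
    (ζ : κ → Bool → Finset (Name m n)) (A : Fin m → Fin n → ℝ) (b : Fin m → ℝ)
    (hζ : Switched ζ A b) :
    ∃ ρ, Solves m n {z | z.1 = A ∧ z.2.1 = b ∧ BddAbove (val z.2.2 '' polyhedron A b)}
      (Fintype.card κ * ((Fintype.card κ + 2) * (n * (2 * Fintype.card κ + 3) + 1))) ρ := by
  classical
  obtain ⟨R, hRc, hRC, hRs⟩ := hT m n κ ζ A b hζ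
  have hsol := sol_class (ζ := ζ) (R := R) (P := n * (2 * Fintype.card κ + 3) + 1) (by omega)
    (hRc.trans (Nat.pow_le_pow_right (by norm_num) (Nat.le_succ _)))
    (fun h hh => reg_of_class (by
      obtain ⟨h1, h2, h3⟩ := hRC h hh
      exact ⟨by rw [h1, h2]; exact hζ, by rw [h1, h2]; exact h3⟩))
  obtain ⟨ρ, hρ⟩ := hR m n {z | z.1 = A ∧ z.2.1 = b ∧ BddAbove (val z.2.2 '' polyhedron A b)} _ R
    (by
      rintro ⟨A', b', c⟩ ⟨rfl, rfl, h3⟩
      exact hRs c h3)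
    fun X x w hX hne hn => by
      have := hsol X x w hX hne hn
      convert this
  refine ⟨ρ, fun A' b' c hz v hv => ?_⟩
  obtain ⟨N, hN, x, ⟨h0, h1, h2, _⟩, h3, h4⟩ := hρ A' b' c hz v hv
  refine ⟨N, hN, x, h0, h1, fun k hk => ⟨h2 k hk, h3 k hk⟩, ?_⟩
  rcases h4 with h4 | ⟨d, ⟨hd1, hd2⟩, _⟩
  · exact h4
  · exfalso
    obtain ⟨rfl, rfl, hb⟩ := hz
    refine no_unb (z := (A', b', c)) hb (h1 N le_rfl).1 (by rw [← val_eq]; exact hd2)
      fun t ht => ?_
    exact hd1.subset ⟨t, ht, rfl⟩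

end Pool.Agent.K4H92.ZO
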