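import Pool.Agent.K4H92.ZO.Main
set_option autoImplicit false

/-!
# 0/1-polytopes
-/

namespace Pool.Agent.K4H92.ZO

open Finset Pool.Agent.K4H92.LP Pool.Agent.K4H92.NO

theorem zeroOne_of_main' : ZeroOneOfMain := by
  classical
  intro hmain m n r
  obtain ⟨ρ, hρ⟩ := hmain m n (Fin n) fun j t => if t then {Sum.inl (r j)} else {Sum.inr j}
  rw [Fintype.card_fin] at hρ
  refine ⟨ρ, fun A b c hz => hρ A b c ?_⟩
  obtain ⟨h1, h2, h3⟩ := hz
  change (∀ j l, A (r j) l = if l = j then 1 else 0) at h1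
  change ∀ j, b (r j) = 1 at h2
  change ∀ x ∈ (polyhedron A b).extremePoints ℝ, ∀ j, x j = 0 ∨ x j = 1 at h3
  have hsum : ∀ (x : Fin n → ℝ) j, ∑ l, A (r j) l * x l = x j := by
    intro x j
    simp [h1]
  have ht1 : ∀ (x : Fin n → ℝ) j, Sum.inl (r j) ∈ tightAt A b x ↔ x j = 1 := by
    intro x j
    rw [tightAt, mem_filter]
    simp [hsum, h2]
  have ht0 : ∀ (x : Fin n → ℝ) (j : Fin n), Sum.inr j ∈ tightAt A b x ↔ x j = 0 := by
    intro x j
    rw [tightAt, mem_filter]
    simp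
  refine ⟨⟨fun x hx i => ?_, fun x hx y hy hxy => ?_⟩, ?_⟩
  · simp only [if_true, singleton_subset_iff, ht1, Bool.false_eq_true, if_false, ht0]
    rcases h3 x hx i with h | h <;> simp [h]
  · funext j
    have h4 := hxy j
    simp only [if_true, singleton_subset_iff, ht1] at h4
    rcases h3 x hx j with h | h <;> rcases h3 y hy j with h' | h'
    · rw [h, h']
    · exact absurd (h4.2 h') (by rw [h]; norm_num)
    · exact absurd (h4.1 h) (by rw [h']; norm_num)
    · rw [h, h']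
  · refine ⟨∑ j, |c j|, ?_⟩
    rintro _ ⟨x, hx, rfl⟩
    refine sum_le_sum fun j _ => ?_
    have hx0 : 0 ≤ x j := hx.2 j
    have hx1 : x j ≤ 1 := by
      have := hx.1 (r j)
      rw [hsum] at this
      exact this.trans_eq (h2 j)
    calc c j * x j ≤ |c j| * x j := mul_le_mul_of_nonneg_right (le_abs_self _) hx0
      _ ≤ |c j| * 1 := mul_le_mul_of_nonneg_left hx1 (abs_nonneg _)
      _ = |c j| := mul_one _

end Pool.Agent.K4H92.ZO
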