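import Pool.Agent.K4H92.NO.Game
set_option autoImplicit false

/-!
# Programs with switches: one round
-/

namespace Pool.Agent.K4H92.ZO

open Finset Pool.Agent.K4H92.LP Pool.Agent.K4H92.NO

section Bits

variable {I : Type*} [DecidableEq I] {κ : Type*} {ζ : κ → Bool → Finset I} {T T' : Finset I}
  {u v : κ → Bool}

/-- the bits of a set of tight rows -/
def Bit (ζ : κ → Bool → Finset I) (T : Finset I) (u : κ → Bool) : Prop :=
  ∀ i, ζ i (u i) ⊆ T ∧ ¬ ζ i (!u i) ⊆ T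

theorem Bit.eq (h : Bit ζ T u) {i : κ} {b : Bool} (hb : ζ i b ⊆ T) : u i = b := by
  by_contra hne
  have h1 : b = !u i := by
    revert hne
    cases u i <;> cases b <;> simp
  exact (h i).2 (h1 ▸ hb)

theorem Bit.unique (h : Bit ζ T u) (h' : Bit ζ T v) : u = v :=
  funext fun i => h.eq (h' i).1

variable [Fintype κ] [DecidableEq κ]

/-- the rows which cut out the face of the vertices with the bits `u i`, `i ∉ J` -/
def SJ (ζ : κ → Bool → Finset I) (J : Finset κ) (u : κ → Bool) : Finset I :=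
  (univ.filter fun i => i ∉ J).biUnion fun i => ζ i (u i)

theorem SJ_sub {J : Finset κ} : SJ ζ J u ⊆ T ↔ ∀ i ∉ J, ζ i (u i) ⊆ T := by
  rw [SJ, biUnion_subset]
  simp

end Bits

section Single

variable {E : Type*} [AddCommGroup E] [Module ℝ E] {I : Type*} [Fintype I] [DecidableEq I]
  {κ : Type*} [Fintype κ] [DecidableEq κ]

/-- a program with switches and without unbounded improving edges -/
structure Reg (ζ : κ → Bool → Finset I) (a : I → E →ₗ[ℝ] ℝ) (β : I → ℝ) (c : E →ₗ[ℝ] ℝ)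
    (K : Finset I) : Prop where
  bits : ∀ x, VK a β K x → ∃ u, Bit ζ (tk a β K x) u
  inj : ∀ x y u, VK a β K x → VK a β K y → Bit ζ (tk a β K x) u → Bit ζ (tk a β K y) u → x = y
  bdd : ∀ x e, VK a β K x → Dir a (tk a β K x) e → 0 < c e → ¬ ∀ i ∈ K, a i e ≤ 0

variable {ζ : κ → Bool → Finset I} {a : I → E →ₗ[ℝ] ℝ} {β : I → ℝ} {c : E →ₗ[ℝ] ℝ}
  {K S : Finset I} {x y : E} {Z : Finset I}

theorem Reg.st (h : Reg ζ a β c K) (hx : VK a β K x) (hZ : Z ∈ im a β c K x) :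
    ∃ y, St a β c K x Z y := by
  rcases exists_st hx hZ with h1 | ⟨e, he, hc, _, hu⟩
  · exact h1
  · exact absurd hu (h.bdd x e hx he hc)

theorem tk_inj (hx : VK a β K x) (_hy : VK a β K y) (h : tk a β K x = tk a β K y) : x = y := by
  refine sub_eq_zero.1 (hx.2 _ fun i hi => ?_)
  rw [map_sub, (mem_tk.1 hi).2, (mem_tk.1 (h ▸ hi)).2, sub_self]

theorem Reg.opt (h : Reg ζ a β c K) (hx : VK a β K x) (hS : S ⊆ tk a β K x) :
    ∃ y, VK a β K y ∧ S ⊆ tk a β K y ∧ ∀ Z ∈ im a β c K y, ¬ S ⊆ Z := by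
  have hfin : {y | VK a β K y ∧ S ⊆ tk a β K y}.Finite := by
    refine Set.Finite.of_injOn (f := fun y => tk a β K y) (t := Set.univ)
      (fun _ _ => Set.mem_univ _) (fun y hy z hz hyz => tk_inj hy.1 hz.1 hyz) Set.finite_univ
  obtain ⟨y, hy, hmax⟩ := Set.exists_max_image _ (fun y => c y) hfin ⟨x, hx, hS⟩
  refine ⟨y, hy.1, hy.2, fun Z hZ hSZ => ?_⟩
  obtain ⟨z, hz⟩ := h.st hy.1 hZ
  exact absurd (hmax z ⟨hz.2.1, hSZ.trans hz.sub⟩) (not_le.2 hz.lt)

end Single

section Families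

variable {E : Type*} [AddCommGroup E] [Module ℝ E] {I : Type*} [Fintype I] [DecidableEq I]
  {κ : Type*} [Fintype κ] [DecidableEq κ] {Ω : Type*} [DecidableEq Ω]
  (ζ : κ → Bool → Finset I) (a : Ω → I → E →ₗ[ℝ] ℝ) (β : Ω → I → ℝ) (c : Ω → E →ₗ[ℝ] ℝ)
  (K : Finset I)

/-- the program `h` has the view `w` at the vertex with the bits `v` -/
def At (h : Ω) (v : κ → Bool) (w : Vw I) : Prop :=
  ∃ y, VK (a h) (β h) K y ∧ vw a β c K h y = w ∧ Bit ζ w.1 v

/-- in the face of the vertices which agree with `u` off `J`, the vertex with the bits `v` beats all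
vertices which are not optimal -/
def Good (J : Finset κ) (u v : κ → Bool) (h : Ω) : Prop :=
  ∃ y, VK (a h) (β h) K y ∧ Bit ζ (tk (a h) (β h) K y) v ∧
    ∀ x, VK (a h) (β h) K x → SJ ζ J u ⊆ tk (a h) (β h) K x →
      im (a h) (β h) (c h) K x ≠ ∅ → x = y ∨ c h x < c h y

open Classical in
/-- the programs in `X` with the view `w` at the vertex with the bits `v` -/
noncomputable def F (X : Finset Ω) (v : κ → Bool) (w : Vw I) : Finset Ω :=
  X.filter fun h => At ζ a β c K h v w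

/-- the face `J` is settled -/
def Settled (X : Finset Ω) (u : κ → Bool) (J : Finset κ) : Prop :=
  ∃ v w, (∀ i ∉ J, v i = u i) ∧
    (Fintype.card κ + 1) * X.card < (Fintype.card κ + 2) * (F ζ a β c K X v w).card ∧
    ∀ Z ∈ w.2, ¬ SJ ζ J u ⊆ Z

variable {ζ a β c K}

theorem At.unique {h : Ω} {v : κ → Bool} {w w' : Vw I} (hr : Reg ζ (a h) (β h) (c h) K)
    (h1 : At ζ a β c K h v w) (h2 : At ζ a β c K h v w') : w = w' := by
  obtain ⟨y, hy, rfl, hb⟩ := h1
  obtain ⟨y', hy', rfl, hb'⟩ := h2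
  rw [hr.inj y y' v hy hy' hb hb']

theorem card_sdiff_F {X : Finset Ω} {v : κ → Bool} {w : Vw I}
    (h : (Fintype.card κ + 1) * X.card < (Fintype.card κ + 2) * (F ζ a β c K X v w).card) :
    (Fintype.card κ + 2) * (X \ F ζ a β c K X v w).card ≤ X.card := by
  classical
  have h1 : F ζ a β c K X v w ⊆ X := filter_subset _ _
  have h2 := card_sdiff_add_card_eq_card h1
  nlinarith

theorem mem_F {X : Finset Ω} {v : κ → Bool} {w : Vw I} {h : Ω} :
    h ∈ F ζ a β c K X v w ↔ h ∈ X ∧ At ζ a β c K h v w := by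
  classical
  simp [F]

omit [Fintype κ] in
theorem exists_min [Fintype κ] {P : Finset κ → Prop} (h : ¬ P univ) :
    ∃ J, ¬ P J ∧ ∀ i ∈ J, P (J.erase i) := by
  by_contra hcon
  push Not at hcon
  have key : ∀ J : Finset κ, P J := by
    intro J
    induction J using Finset.strongInduction with
    | H J ih =>
      by_contra hJ
      obtain ⟨i, hi, h1⟩ := hcon J hJ
      exact h1 (ih _ (erase_ssubset hi))
  exact h (key univ)

/-- a face of a program: an optimal vertex is best -/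
theorem best {h : Ω} {J : Finset κ} {u : κ → Bool} {x y : E} (hx : VK (a h) (β h) K x)
    (hS : SJ ζ J u ⊆ tk (a h) (β h) K x) (hno : ∀ Z ∈ im (a h) (β h) (c h) K x, ¬ SJ ζ J u ⊆ Z)
    (hy : VK (a h) (β h) K y) (hyS : SJ ζ J u ⊆ tk (a h) (β h) K y) : c h y ≤ c h x :=
  face_le hx hS hno hy.1 fun _ hi => (mem_tk.1 (hyS hi)).2

theorem target_univ {X : Finset Ω} (hr : ∀ h ∈ X, Reg ζ (a h) (β h) (c h) K) {u : κ → Bool}
    (hset : Settled ζ a β c K X u univ) :
    ∃ (J : Finset κ) (v : κ → Bool), (∀ i ∉ J, v i = u i) ∧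
      (∃ Y : Finset Ω, (∀ h ∈ X, ¬ Good ζ a β c K J u v h → h ∈ Y) ∧
        (Fintype.card κ + 2) * Y.card ≤ (Fintype.card κ + 1) * X.card) ∧
      ∀ w' : Vw I, w'.2 ≠ ∅ →
        (Fintype.card κ + 2) * (F ζ a β c K X v w').card ≤ (Fintype.card κ + 1) * X.card := by
  classical
  obtain ⟨v, w1, _, h2, h3⟩ := hset
  have hS : SJ ζ univ u = ∅ := by simp [SJ]
  have hw1 : ∀ Z, Z ∉ w1.2 := fun Z hZ => h3 Z hZ (by rw [hS]; exact empty_subset _)
  have hc := card_sdiff_F h2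
  refine ⟨univ, v, fun i hi => absurd (mem_univ i) hi, ⟨X \ F ζ a β c K X v w1, ?_, ?_⟩, ?_⟩
  · intro h hh hg
    refine mem_sdiff.2 ⟨hh, fun hF => hg ?_⟩
    obtain ⟨y, hy, hvw, hb⟩ := (mem_F.1 hF).2
    have hno : ∀ Z, Z ∉ im (a h) (β h) (c h) K y := by
      intro Z hZ
      apply hw1 Z
      rw [← hvw]
      exact hZ
    refine ⟨y, hy, ?_, fun x hx _ hne => Or.inr ?_⟩
    · rw [← hvw] at hb; exact hb
    · obtain ⟨Z, hZ⟩ := Set.nonempty_iff_ne_empty.2 hne
      obtain ⟨z, hz⟩ := (hr h hh).st hx hZ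
      refine hz.lt.trans_le ?_
      exact best (J := univ) (u := u) (ζ := ζ) hy (by rw [hS]; exact empty_subset _)
        (fun Z hZ => absurd hZ (hno Z)) hz.2.1 (by rw [hS]; exact empty_subset _)
  · nlinarith
  · intro w' hw'
    have hsub : F ζ a β c K X v w' ⊆ X \ F ζ a β c K X v w1 := by
      intro h hh
      obtain ⟨h4, h5⟩ := mem_F.1 hh
      refine mem_sdiff.2 ⟨h4, fun h6 => ?_⟩
      obtain ⟨Z, hZ⟩ := Set.nonempty_iff_ne_empty.2 hw'
      rw [At.unique (hr h h4) h5 (mem_F.1 h6).2] at hZ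
      exact hw1 Z hZ
    have h7 := card_le_card hsub
    nlinarith

/-- **the target** -/
theorem target {X : Finset Ω} {x : Ω → E} {w : Vw I} (hn : Node a β c K X x w)
    (hr : ∀ h ∈ X, Reg ζ (a h) (β h) (c h) K) {u : κ → Bool} (hu : Bit ζ w.1 u) :
    ∃ (J : Finset κ) (v : κ → Bool), (∀ i ∉ J, v i = u i) ∧
      (∃ Y : Finset Ω, (∀ h ∈ X, ¬ Good ζ a β c K J u v h → h ∈ Y) ∧
        (Fintype.card κ + 2) * Y.card ≤ (Fintype.card κ + 1) * X.card) ∧
      ∀ w' : Vw I, w'.2 ≠ ∅ →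
        (Fintype.card κ + 2) * (F ζ a β c K X v w').card ≤ (Fintype.card κ + 1) * X.card := by
  classical
  by_cases hset : Settled ζ a β c K X u univ
  · exact target_univ hr hset
  obtain ⟨J, hJ, hJi⟩ := exists_min (P := Settled ζ a β c K X u) hset
  choose! vv ww hv1 hv2 hv3 using hJi
  set Y : Finset Ω := J.biUnion fun i => X \ F ζ a β c K X (vv i) (ww i) with hY
  have hYc : (Fintype.card κ + 2) * Y.card ≤ Fintype.card κ * X.card := by
    calc (Fintype.card κ + 2) * Y.card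
        ≤ (Fintype.card κ + 2) * ∑ i ∈ J, (X \ F ζ a β c K X (vv i) (ww i)).card :=
          Nat.mul_le_mul_left _ card_biUnion_le
      _ = ∑ i ∈ J, (Fintype.card κ + 2) * (X \ F ζ a β c K X (vv i) (ww i)).card := mul_sum _ _ _
      _ ≤ ∑ _i ∈ J, X.card := sum_le_sum fun i hi => card_sdiff_F (hv2 i hi)
      _ = J.card * X.card := by rw [sum_const, smul_eq_mul]
      _ ≤ Fintype.card κ * X.card := Nat.mul_le_mul_right _ (card_le_univ J)
  have hat : ∀ h ∈ X, h ∉ Y → ∀ i ∈ J, At ζ a β c K h (vv i) (ww i) := by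
    intro h hh hhY i hi
    by_contra hcon
    exact hhY (mem_biUnion.2 ⟨i, hi, mem_sdiff.2 ⟨hh, fun h1 => hcon (mem_F.1 h1).2⟩⟩)
  have hbad : ∀ i ∈ J, ∃ Z ∈ (ww i).2, SJ ζ J u ⊆ Z := by
    intro i hi
    by_contra hcon
    push Not at hcon
    exact hJ ⟨vv i, ww i, fun j hj => hv1 i hi j fun h1 => hj (mem_of_mem_erase h1), hv2 i hi, hcon⟩
  set v : κ → Bool := fun i => if i ∈ J then !u i else u i with hv
  -- the optimal vertices of the face have the bits `v`
  have key : ∀ h ∈ X, h ∉ Y → ∀ y, VK (a h) (β h) K y → SJ ζ J u ⊆ tk (a h) (β h) K y →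
      (∀ Z ∈ im (a h) (β h) (c h) K y, ¬ SJ ζ J u ⊆ Z) → Bit ζ (tk (a h) (β h) K y) v := by
    intro h hh hhY y hy hyS hno
    obtain ⟨u', hu'⟩ := (hr h hh).bits y hy
    suffices hs : u' = v by rw [← hs]; exact hu'
    funext i
    by_cases hi : i ∈ J
    · rw [hv]
      simp only [hi, if_true]
      by_contra hne
      have h1 : u' i = u i := by
        revert hne
        cases u' i <;> cases u i <;> simp
      obtain ⟨z, hz, hzw, hzb⟩ := hat h hh hhY i hi
      have hzt : (ww i).1 = tk (a h) (β h) K z := by rw [← hzw]; rfl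
      have hzi : (ww i).2 = im (a h) (β h) (c h) K z := by rw [← hzw]; rfl
      have h2 : SJ ζ (J.erase i) u ⊆ tk (a h) (β h) K y := by
        rw [SJ_sub] at hyS ⊢
        intro j hj
        by_cases hji : j = i
        · rw [hji, ← h1]; exact (hu' i).1
        · exact hyS j fun h3 => hj (mem_erase.2 ⟨hji, h3⟩)
      have h3 : SJ ζ (J.erase i) u ⊆ tk (a h) (β h) K z := by
        rw [SJ_sub]
        intro j hj
        rw [← hv1 i hi j hj, ← hzt]
        exact (hzb j).1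
      have h4 : c h y ≤ c h z := best hz h3 (fun Z hZ => hv3 i hi Z (hzi ▸ hZ)) hy h2
      obtain ⟨Z, hZ, hSZ⟩ := hbad i hi
      rw [hzi] at hZ
      obtain ⟨z', hz'⟩ := (hr h hh).st hz hZ
      have h5 : c h z' ≤ c h y := best hy hyS hno hz'.2.1 (hSZ.trans hz'.sub)
      exact absurd hz'.lt (not_lt.2 (h5.trans h4))
    · rw [hv]
      simp only [hi, if_false]
      exact hu'.eq (SJ_sub.1 hyS i hi)
  have hopt : ∀ h ∈ X, h ∉ Y → ∃ y, VK (a h) (β h) K y ∧ SJ ζ J u ⊆ tk (a h) (β h) K y ∧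
      (∀ Z ∈ im (a h) (β h) (c h) K y, ¬ SJ ζ J u ⊆ Z) ∧ Bit ζ (tk (a h) (β h) K y) v := by
    intro h hh hhY
    obtain ⟨hx1, hx2⟩ := hn h hh
    have hxS : SJ ζ J u ⊆ tk (a h) (β h) K (x h) := by
      rw [SJ_sub]
      intro i _
      have : w.1 = tk (a h) (β h) K (x h) := by rw [← hx2]; rfl
      rw [← this]
      exact (hu i).1
    obtain ⟨y, hy, hyS, hno⟩ := (hr h hh).opt hx1 hxS
    exact ⟨y, hy, hyS, hno, key h hh hhY y hy hyS hno⟩
  refine ⟨J, v, fun i hi => by simp [hv, hi], ⟨Y, ?_, ?_⟩, ?_⟩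
  · intro h hh hg
    by_contra hhY
    obtain ⟨y, hy, hyS, hno, hb⟩ := hopt h hh hhY
    refine hg ⟨y, hy, hb, fun x' hx' hxS' _ => ?_⟩
    rcases (best hy hyS hno hx' hxS').lt_or_eq with h1 | h1
    · exact Or.inr h1
    · left
      refine (hr h hh).inj x' y v hx' hy (key h hh hhY x' hx' hxS' fun Z hZ hSZ => ?_) hb
      obtain ⟨z, hz⟩ := (hr h hh).st hx' hZ
      have h2 := best hy hyS hno hz.2.1 (hSZ.trans hz.sub)
      have h3 := hz.lt
      rw [h1] at h3
      exact absurd h3 (not_lt.2 h2)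
  · nlinarith
  · intro w' _
    by_contra hcon
    push Not at hcon
    have hex : ∃ h ∈ F ζ a β c K X v w', h ∉ Y := by
      by_contra hno
      push Not at hno
      have h1 := card_le_card (show F ζ a β c K X v w' ⊆ Y from hno)
      nlinarith
    obtain ⟨h, hhF, hhY⟩ := hex
    obtain ⟨hh, y', hy', hvw, hb'⟩ := mem_F.1 hhF
    obtain ⟨y, hy, hyS, hno, hb⟩ := hopt h hh hhY
    have hyy : y = y' := (hr h hh).inj y y' v hy hy' hb (by rw [← hvw] at hb'; exact hb')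
    refine hJ ⟨v, w', fun i hi => by simp [hv, hi], hcon, fun Z hZ => hno Z ?_⟩
    rw [← hvw] at hZ
    rw [hyy]
    exact hZ

end Families

end Pool.Agent.K4H92.ZO
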