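import Pool.Agent.K4H92.ZO.Main
import Pool.Agent.K4H92.ZO.Spec3
import Pool.Agent.H247R2.Warren
set_option autoImplicit false

/-!
# Known polyhedra: the number of types of objectives
-/

namespace Pool.Agent.K4H92.ZO

open Finset Pool.Agent.K4H92.LP Pool.Agent.K4H92.NO

variable {m n : ℕ}

open Classical in
/-- the vertex with the bits `u` -/
noncomputable def vt {κ : Type} (ζ : κ → Bool → Finset (Name m n)) (A : Fin m → Fin n → ℝ)
    (b : Fin m → ℝ) (u : κ → Bool) : Fin n → ℝ :=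
  if h : ∃ x ∈ (polyhedron A b).extremePoints ℝ, ∀ i, ζ i (u i) ⊆ tightAt A b x then h.choose else 0

open Classical in
/-- the bits of a vertex -/
noncomputable def bt {κ : Type} (ζ : κ → Bool → Finset (Name m n)) (A : Fin m → Fin n → ℝ)
    (b : Fin m → ℝ) (x : Fin n → ℝ) : κ → Bool := fun i => decide (ζ i true ⊆ tightAt A b x)

theorem vt_bt {κ : Type} {ζ : κ → Bool → Finset (Name m n)} {A : Fin m → Fin n → ℝ}
    {b : Fin m → ℝ} (hζ : Switched ζ A b) {x : Fin n → ℝ}
    (hx : x ∈ (polyhedron A b).extremePoints ℝ) : vt ζ A b (bt ζ A b x) = x := by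
  classical
  have h1 : ∀ y ∈ (polyhedron A b).extremePoints ℝ, ∀ i,
      ζ i (bt ζ A b y i) ⊆ tightAt A b y := by
    intro y hy i
    by_cases h : ζ i true ⊆ tightAt A b y
    · simp only [bt, h, decide_true]
    · simp only [bt, h, decide_false]
      by_contra h2
      exact h ((hζ.1 y hy i).2 h2)
  have h2 : ∃ y ∈ (polyhedron A b).extremePoints ℝ, ∀ i,
      ζ i (bt ζ A b x i) ⊆ tightAt A b y := ⟨x, hx, h1 x hx⟩
  have h3 : vt ζ A b (bt ζ A b x) = h2.choose := by rw [vt]; exact dif_pos h2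
  rw [h3]
  obtain ⟨h4, h5⟩ := h2.choose_spec
  refine hζ.2 _ h4 x hx fun i => ?_
  have h6 := h5 i
  by_cases h : ζ i true ⊆ tightAt A b x
  · simp only [bt, h, decide_true] at h6
    exact ⟨fun _ => h, fun _ => h6⟩
  · simp only [bt, h, decide_false] at h6
    refine ⟨fun h7 => absurd h6 ((hζ.1 _ h4 i).1 h7), fun h7 => absurd h7 h⟩

/-- the signs of an objective on the differences of the vertices -/
noncomputable def sgn {κ : Type} (ζ : κ → Bool → Finset (Name m n)) (A : Fin m → Fin n → ℝ)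
    (b : Fin m → ℝ) (c : Fin n → ℝ) (q : (κ → Bool) × (κ → Bool)) : SignType :=
  SignType.sign (lf c (vt ζ A b q.2 - vt ζ A b q.1))

theorem pos_of_sgn {κ : Type} {ζ : κ → Bool → Finset (Name m n)} {A : Fin m → Fin n → ℝ}
    {b : Fin m → ℝ} (hζ : Switched ζ A b) {c c' : Fin n → ℝ}
    (hc : BddAbove (val c '' polyhedron A b)) (h : sgn ζ A b c = sgn ζ A b c')
    {T : Finset (Ix m n)} {x e : Fin n → ℝ} (hx : AtT A (b, c) T x) (he : Dir (rows A) T e)
    (hce : 0 < lf c e) : 0 < lf c' e := by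
  obtain ⟨hxv, hxT⟩ := hx
  have hxe : x ∈ (polyhedron A b).extremePoints ℝ := by
    rw [poly_eq]; exact hxv.extreme
  rw [← hxT] at he
  rcases step_end hxv he with h1 | ⟨t, ht, h1, _⟩
  · exfalso
    refine no_unb (z := (A, b, c)) hc hxe.1 hce fun t ht => ?_
    rw [poly_eq]
    exact h1 t ht
  · have hye : x + t • e ∈ (polyhedron A b).extremePoints ℝ := by
      rw [poly_eq]; exact h1.extreme
    have h2 := congrFun h (bt ζ A b x, bt ζ A b (x + t • e))
    simp only [sgn, vt_bt hζ hxe, vt_bt hζ hye, add_sub_cancel_left, map_smul, smul_eq_mul] at h2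
    rw [sign_mul, sign_mul, sign_pos ht, one_mul, one_mul, sign_pos hce] at h2
    exact sign_eq_one_iff.1 h2.symm

theorem types_known' : TypesKnown := by
  classical
  intro m n κ _ ζ A b hζ
  set S : Finset ((κ → Bool) × (κ → Bool) → SignType) := univ.filter fun σ =>
    ∃ c, BddAbove (val c '' polyhedron A b) ∧ sgn ζ A b c = σ with hS
  have hz : ∀ σ : S, ∃ c, BddAbove (val c '' polyhedron A b) ∧
      sgn ζ A b c = (σ : (κ → Bool) × (κ → Bool) → SignType) := fun σ => (mem_filter.1 σ.2).2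
  choose g hg1 hg2 using hz
  refine ⟨univ.image fun σ : S => (A, b, g σ), ?_, ?_, fun c hc => ?_⟩
  · refine card_image_le.trans ?_
    rw [card_univ, Fintype.card_coe]
    have hcnt := Pool.Agent.H247R2.Warren.sign_count (ι := Fin n)
      (fun q : (κ → Bool) × (κ → Bool) => ∑ j, MvPolynomial.C ((vt ζ A b q.2 - vt ζ A b q.1) j) *
        MvPolynomial.X j) 1 (fun q => ?_) S ?_
    · refine hcnt.trans ?_
      rw [Fintype.card_fin]
      have h1 : 4 * (Fintype.card ((κ → Bool) × (κ → Bool)) * 1) + 1 ≤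
          2 ^ (2 * Fintype.card κ + 3) := by
        have h2 : Fintype.card ((κ → Bool) × (κ → Bool)) = 2 ^ (2 * Fintype.card κ) := by
          rw [Fintype.card_prod, Fintype.card_fun, Fintype.card_bool]
          ring
        rw [h2, pow_add]
        have : 1 ≤ 2 ^ (2 * Fintype.card κ) := Nat.one_le_pow _ _ (by norm_num)
        omega
      calc (4 * (Fintype.card ((κ → Bool) × (κ → Bool)) * 1) + 1) ^ n
          ≤ (2 ^ (2 * Fintype.card κ + 3)) ^ n := Nat.pow_le_pow_left h1 n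
        _ = 2 ^ (n * (2 * Fintype.card κ + 3)) := by rw [← pow_mul, mul_comm]
    · refine (MvPolynomial.totalDegree_finset_sum _ _).trans (Finset.sup_le fun j _ => ?_)
      refine (MvPolynomial.totalDegree_mul _ _).trans ?_
      rw [MvPolynomial.totalDegree_C, MvPolynomial.totalDegree_X]
    · intro σ hσ
      obtain ⟨c, _, hc⟩ := (mem_filter.1 hσ).2
      refine ⟨c, fun q => ?_⟩
      rw [← hc, sgn, lf_apply]
      congr 1
      rw [map_sum]
      refine sum_congr rfl fun j _ => ?_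
      rw [map_mul, MvPolynomial.eval_C, MvPolynomial.eval_X, mul_comm]
  · intro h hh
    obtain ⟨σ, _, rfl⟩ := mem_image.1 hh
    exact ⟨rfl, rfl, hg1 σ⟩
  · have hm : sgn ζ A b c ∈ S := mem_filter.2 ⟨mem_univ _, c, hc, rfl⟩
    refine ⟨(A, b, g ⟨_, hm⟩), mem_image_of_mem _ (mem_univ _), fun T => Iff.rfl, fun T hT => ?_⟩
    obtain ⟨x, hx⟩ := hT
    have h1 : sgn ζ A b (g ⟨_, hm⟩) = sgn ζ A b c := hg2 ⟨_, hm⟩
    ext Z
    constructor
    · rintro ⟨e, he, hce, rfl⟩
      exact ⟨e, he, pos_of_sgn hζ hc h1.symm hx he hce, rfl⟩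
    · rintro ⟨e, he, hce, rfl⟩
      exact ⟨e, he, pos_of_sgn hζ (hg1 ⟨_, hm⟩) h1 hx he hce, rfl⟩

end Pool.Agent.K4H92.ZO
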