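import Pool.Agent.K4H92.ZO.Spec
set_option autoImplicit false

/-!
# Statements of the pieces: programs with switches
-/

namespace Pool.Agent.K4H92.ZO

open Finset Pool.Agent.K4H92.LP Pool.Agent.K4H92.NO

variable {m n : ℕ}

/-- `ζ i true` and `ζ i false` name two faces. Every vertex lies on exactly one of them, for each `i`, and
the vertex is determined by this choice. -/
def Switched {m n : ℕ} {κ : Type} (ζ : κ → Bool → Finset (Name m n)) (A : Fin m → Fin n → ℝ)
    (b : Fin m → ℝ) : Prop :=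
  (∀ x ∈ (polyhedron A b).extremePoints ℝ, ∀ i,
    (ζ i true ⊆ tightAt A b x ↔ ¬ ζ i false ⊆ tightAt A b x)) ∧
  ∀ x ∈ (polyhedron A b).extremePoints ℝ, ∀ y ∈ (polyhedron A b).extremePoints ℝ,
    (∀ i, ζ i true ⊆ tightAt A b x ↔ ζ i true ⊆ tightAt A b y) → x = y

/-- `ρ` finds an optimal vertex in `N` improving pivots, for all programs in the class `𝒞` -/
def Solves (m n : ℕ) (𝒞 : Set (Data m n)) (N : ℕ)
    (ρ : List (Finset (Name m n) × Set (Finset (Name m n))) → Finset (Name m n)) : Prop :=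
  ∀ (A : Fin m → Fin n → ℝ) (b : Fin m → ℝ) (c : Fin n → ℝ), (A, b, c) ∈ 𝒞 →
    ∀ v ∈ (polyhedron A b).extremePoints ℝ,
      ∃ N' ≤ N, ∃ x : ℕ → Fin n → ℝ, x 0 = v ∧
        (∀ k ≤ N', x k ∈ (polyhedron A b).extremePoints ℝ) ∧
        (∀ k < N', ImprovingEdge (polyhedron A b) c (x k) (x (k + 1)) ∧
          tightAt A b (x k) ∩ tightAt A b (x (k + 1)) = ρ (history A b c x k)) ∧
        ∀ y ∈ polyhedron A b, val c y ≤ val c (x N')

/-- the programs with the switches `ζ` whose objective is bounded -/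
def ClassS {κ : Type} (ζ : κ → Bool → Finset (Name m n)) : Set (Data m n) :=
  {z | Switched ζ z.1 z.2.1 ∧ BddAbove (val z.2.2 '' polyhedron z.1 z.2.1)}

/-- main statement (helper92) -/
def MainS : Prop :=
  ∀ (m n : ℕ) (κ : Type) [Fintype κ] (ζ : κ → Bool → Finset (Name m n)),
    ∃ ρ, Solves m n (ClassS ζ) (Fintype.card κ * ((Fintype.card κ + 2) * (m + n + 3) ^ 4)) ρ

/-- 0/1-polytopes; `r j` is the name of the row `x j ≤ 1` -/
def ClassZO {m n : ℕ} (r : Fin n → Fin m) : Set (Data m n) :=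
  {z | (∀ j l, z.1 (r j) l = if l = j then 1 else 0) ∧ (∀ j, z.2.1 (r j) = 1) ∧
    ∀ x ∈ (polyhedron z.1 z.2.1).extremePoints ℝ, ∀ j, x j = 0 ∨ x j = 1}

/-- piece B1 -/
def ZeroOneOfMain : Prop :=
  MainS → ∀ (m n : ℕ) (r : Fin n → Fin m), ∃ ρ,
    Solves m n (ClassZO r) (n * ((n + 2) * (m + n + 3) ^ 4)) ρ

/-- the constraints are divided into blocks, and at every vertex exactly one constraint of each block is
not tight (for example: deformed products of simplices, deformed cubes) -/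
def ClassB {m n p : ℕ} (β : Name m n → Fin p) : Set (Data m n) :=
  {z | (∀ x ∈ (polyhedron z.1 z.2.1).extremePoints ℝ, ∀ B : Fin p,
      ∃! ν, β ν = B ∧ ν ∉ tightAt z.1 z.2.1 x) ∧
    BddAbove (val z.2.2 '' polyhedron z.1 z.2.1)}

/-- piece B2 -/
def BlocksOfMain : Prop :=
  MainS → ∀ (m n p : ℕ) (β : Name m n → Fin p), ∃ ρ,
    Solves m n (ClassB β) ((m + n) * ((m + n + 2) * (m + n + 3) ^ 4)) ρ

end Pool.Agent.K4H92.ZO
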