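import Pool.Agent.K4H92.ZO.Sol
import Pool.Agent.K4H92.ZO.Spec2
set_option autoImplicit false

/-!
# The main statement
-/

namespace Pool.Agent.K4H92.ZO

open Finset Pool.Agent.K4H92.LP Pool.Agent.K4H92.NO

variable {m n : ℕ}

theorem poly_eq (A : Fin m → Fin n → ℝ) (b : Fin m → ℝ) :
    polyhedron A b = PP (rows A) (rhs b) := by
  ext x
  exact mem_PP.symm

theorem val_eq (c x : Fin n → ℝ) : val c x = lf c x := (lf_apply c x).symm

theorem tight_eq (A : Fin m → Fin n → ℝ) (b : Fin m → ℝ) (x : Fin n → ℝ) :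
    tightAt A b x = tight (rows A) (rhs b) x := by
  classical
  ext i
  rw [mem_tight, tightAt, mem_filter]
  rcases i with i | j
  · rw [rows_inl]
    simp [rhs]
  · rw [rows_inr]
    simp [rhs]

theorem vk_ext {z : Data m n} {x : Fin n → ℝ} (h : VK (fa m n z) (fb m n z) univ x) :
    x ∈ (polyhedron z.1 z.2.1).extremePoints ℝ := by
  rw [poly_eq]
  exact ((vk_vert z x).1 h).extreme

theorem tk_eq (z : Data m n) (x : Fin n → ℝ) :
    tk (fa m n z) (fb m n z) univ x = tightAt z.1 z.2.1 x := by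
  rw [tight_eq]; rfl

/-- the objective is bounded: no unbounded improving direction -/
theorem no_unb {z : Data m n} (hb : BddAbove (val z.2.2 '' polyhedron z.1 z.2.1)) {x e : Fin n → ℝ}
    (hx : x ∈ polyhedron z.1 z.2.1) (hc : 0 < lf z.2.2 e) :
    ¬ ∀ t : ℝ, 0 ≤ t → x + t • e ∈ polyhedron z.1 z.2.1 := by
  intro h
  obtain ⟨M, hM⟩ := hb
  have h1 : ∀ t : ℝ, 0 ≤ t → lf z.2.2 x + t * lf z.2.2 e ≤ M := by
    intro t ht
    have := hM ⟨_, h t ht, rfl⟩
    rw [val_eq, map_add, map_smul, smul_eq_mul] at this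
    exact this
  have h0 := h1 0 le_rfl
  have h2 := h1 ((M - lf z.2.2 x + 1) / lf z.2.2 e) (div_nonneg (by linarith) hc.le)
  rw [div_mul_cancel₀ _ hc.ne'] at h2
  linarith

theorem reg_of_class {κ : Type} {ζ : κ → Bool → Finset (Name m n)}
    {z : Data m n} (hz : z ∈ ClassS ζ) : Reg ζ (fa m n z) (fb m n z) (fc m n z) univ := by
  classical
  obtain ⟨⟨h1, h2⟩, h3⟩ := hz
  refine ⟨fun x hx => ?_, fun x y u hx hy hux huy => ?_, fun x e hx _ hc hu => ?_⟩
  · rw [tk_eq]
    refine ⟨fun i => decide (ζ i true ⊆ tightAt z.1 z.2.1 x), fun i => ?_⟩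
    have h4 := h1 x (vk_ext hx) i
    by_cases h5 : ζ i true ⊆ tightAt z.1 z.2.1 x
    · simp only [h5, decide_true, Bool.not_true, true_and]
      exact h4.1 h5
    · simp only [h5, decide_false, Bool.not_false, not_false_eq_true, and_true]
      by_contra h6
      exact h5 (h4.2 h6)
  · rw [tk_eq] at hux huy
    refine h2 x (vk_ext hx) y (vk_ext hy) fun i => ?_
    constructor
    · intro h
      have := hux.eq h
      rw [← this]
      exact (huy i).1
    · intro h
      have := huy.eq h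
      rw [← this]
      exact (hux i).1
  · have hx' : x ∈ polyhedron z.1 z.2.1 := (vk_ext hx).1
    refine no_unb h3 hx' hc fun t ht => ?_
    rw [poly_eq] at hx' ⊢
    intro i
    have h4 : rows z.1 i e ≤ 0 := hu i (mem_univ i)
    rw [map_add, map_smul, smul_eq_mul]
    have h5 := hx' i
    have h6 := mul_nonpos_of_nonneg_of_nonpos ht h4
    linarith

theorem main (hT : ∀ m n, TypesOf m n) (hR : ∀ m n, RuleOn m n) : MainS := by
  classical
  intro m n κ _ ζ
  obtain ⟨R, hRc, hRC, hRs⟩ := hT m n (ClassS ζ)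
  have hP : 1 ≤ (m + n + 3) ^ 4 := Nat.one_le_pow _ _ (by omega)
  have hsol := sol_class (ζ := ζ) hP hRc (fun h hh => reg_of_class (hRC h hh))
  obtain ⟨ρ, hρ⟩ := hR m n (ClassS ζ) _ R hRs fun X x w hX hne hn => by
    have := hsol X x w hX hne hn
    convert this
  refine ⟨ρ, fun A b c hz v hv => ?_⟩
  obtain ⟨N, hN, x, ⟨h0, h1, h2, _⟩, h3, h4⟩ := hρ A b c hz v hv
  refine ⟨N, hN, x, h0, h1, fun k hk => ⟨h2 k hk, h3 k hk⟩, ?_⟩
  rcases h4 with h4 | ⟨d, ⟨hd1, hd2⟩, _⟩
  · exact h4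
  · exfalso
    refine no_unb (z := (A, b, c)) hz.2 (h1 N le_rfl).1 (by rw [← val_eq]; exact hd2)
      fun t ht => ?_
    exact hd1.subset ⟨t, ht, rfl⟩

end Pool.Agent.K4H92.ZO
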