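import Pool.Agent.K4H92.ZO.Spec
set_option autoImplicit false

/-!
# The rule for a class of programs
-/

namespace Pool.Agent.K4H92.ZO

open Finset Pool.Agent.K4H92.LP Pool.Agent.K4H92.NO

/-- `NO.works_of_worksFor` for one program -/
theorem works_one {m n N : ℕ}
    {ρ : List (Finset (Name m n) × Set (Finset (Name m n))) → Finset (Name m n)}
    {A : Fin m → Fin n → ℝ} {b : Fin m → ℝ} {c : Fin n → ℝ}
    (hρ : ∀ v : Fin n → ℝ, Vert (rows A) (rhs b) v →
      ∃ N' ≤ N, ∃ x : ℕ → Fin n → ℝ, x 0 = v ∧ Seq A (b, c) x N' ∧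
        (∀ k < N', ∀ e, ∀ t : ℝ, 0 < t → Dir (rows A) (tight (rows A) (rhs b) (x k)) e →
          x (k + 1) = x k + t • e →
          zer A (tight (rows A) (rhs b) (x k)) e = ρ (hist A (b, c) x k)) ∧
        ((∀ y ∈ PP (rows A) (rhs b), lf c y ≤ lf c (x N')) ∨
          ∃ e, Dir (rows A) (tight (rows A) (rhs b) (x N')) e ∧ 0 < lf c e ∧
            (∀ i, rows A i e ≤ 0) ∧
            zer A (tight (rows A) (rhs b) (x N')) e = ρ (hist A (b, c) x N')))
    (v : Fin n → ℝ) (hv : v ∈ (polyhedron A b).extremePoints ℝ) :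
    ∃ N' ≤ N, ∃ x, ImprovingPath A b c v N' x ∧
      (∀ k < N', tightAt A b (x k) ∩ tightAt A b (x (k + 1)) = ρ (history A b c x k)) ∧
      ((∀ y ∈ polyhedron A b, val c y ≤ val c (x N')) ∨
        ∃ d, UnboundedEdge (polyhedron A b) c (x N') d ∧
          tightAt A b (x N') ∩ tightAt A b (x N' + d) = ρ (history A b c x N')) := by
  classical
  have hP : ∀ b, polyhedron A b = PP (rows A) (rhs b) := by
    intro b
    ext x
    exact mem_PP.symm
  have hval : ∀ c x : Fin n → ℝ, val c x = lf c x := fun c x => (lf_apply c x).symm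
  have htight : ∀ b x, tightAt A b x = tight (rows A) (rhs b) x := by
    intro b x
    ext i
    rw [mem_tight, tightAt, mem_filter]
    rcases i with i | j
    · rw [rows_inl]
      simp [rhs]
    · rw [rows_inr]
      simp [rhs]
  have hview : ∀ (z : Hid m n) (x : Fin n → ℝ), Vert (rows A) (rhs z.1) x →
      view A z.1 z.2 x = LP.vw A z x := by
    intro z x hx
    rw [view, LP.vw, htight]
    congr 1
    ext Z
    constructor
    · rintro (⟨y, ⟨h1, h2⟩, rfl⟩ | ⟨d, ⟨h1, h2⟩, rfl⟩)
      · rw [hP] at h1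
        rw [hval, hval] at h2
        obtain ⟨e, t, he, ht, hy, hc⟩ := dir_of_edge hx h1 h2
        refine ⟨e, he, hc, ?_⟩
        rw [htight, hy]
        exact inter_tight ht
      · rw [hP] at h1
        rw [hval] at h2
        obtain ⟨e, t, he, ht, hy, hc, _⟩ := dir_of_ray hx h1 h2
        refine ⟨e, he, hc, ?_⟩
        rw [htight, hy]
        exact inter_tight ht
    · rintro ⟨e, he, hc, rfl⟩
      rcases step_end hx he with h | ⟨t, ht, h1, h2⟩
      · right
        refine ⟨e, ⟨?_, ?_⟩, ?_⟩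
        · rw [hP]; exact ray_exposed' hx he h
        · rw [hval]; exact hc
        · have := inter_tight (a := rows A) (β := rhs z.1) (x := x) (e := e) (t := 1) one_pos
          rw [one_smul] at this
          rw [htight, this]
          rfl
      · left
        have hstep : Step (rows A) (rhs z.1) (lf z.2) x (x + t • e) :=
          ⟨hx, h1, e, t, he, hc, ht, rfl, h2⟩
        refine ⟨x + t • e, ⟨?_, ?_⟩, ?_⟩
        · rw [hP]; exact hstep.exposed
        · rw [hval, hval]; exact hstep.lt
        · rw [htight]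
          exact (inter_tight ht).symm
  rw [hP] at hv
  obtain ⟨N, hN, x, h0, ⟨h1, h2⟩, h3, h4⟩ := hρ v (Vert.of_extreme hv)
  have hhist : ∀ k ≤ N, history A b c x k = hist A (b, c) x k := by
    intro k hk
    apply List.map_congr_left
    intro j hj
    have hj' : j ≤ N := by
      have := List.mem_range.1 hj
      omega
    exact hview (b, c) (x j) (h1 j hj')
  have hstep : ∀ k < N, Step (rows A) (rhs b) (lf c) (x k) (x (k + 1)) := by
    intro k hk
    obtain ⟨e, t, he, ht, hx, hc⟩ := h2 k hk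
    refine ⟨h1 k hk.le, h1 (k + 1) hk, e, t, he, hc, ht, hx, fun s hs => ?_⟩
    have hv := h1 (k + 1) hk
    rw [hx] at hv
    obtain ⟨i, hi, hie⟩ := tight_pos (h1 k hk.le) ht he hv
    rw [mem_tight, map_add, map_smul, smul_eq_mul] at hi
    have := hs i
    rw [map_add, map_smul, smul_eq_mul] at this
    have h5 : s * rows A i e ≤ t * rows A i e := by
      have : rows A i (x k) + s * rows A i e ≤ rows A i (x k) + t * rows A i e := by
        rw [hi]; exact this
      linarith
    exact le_of_mul_le_mul_right h5 hie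
  have hend : (∀ y ∈ polyhedron A b, val c y ≤ val c (x N)) ∨
      ∃ d, UnboundedEdge (polyhedron A b) c (x N) d ∧
        tightAt A b (x N) ∩ tightAt A b (x N + d) = ρ (history A b c x N) := by
    rcases h4 with h | ⟨e, he, hc, hu, hz⟩
    · left
      intro y hy
      rw [hval, hval]
      rw [hP] at hy
      exact h y hy
    · right
      refine ⟨e, ⟨?_, ?_⟩, ?_⟩
      · rw [hP]
        refine ray_exposed' (h1 N le_rfl) he fun t ht i => ?_
        rw [map_add, map_smul, smul_eq_mul]
        have g1 := mul_nonpos_of_nonneg_of_nonpos ht (hu i)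
        have g2 := (h1 N le_rfl).1 i
        linarith
      · rw [hval]; exact hc
      · have := inter_tight (a := rows A) (β := rhs b) (x := x N) (e := e) (t := 1) one_pos
        rw [one_smul] at this
        rw [htight, htight, this, hhist N le_rfl, ← hz]
        rfl
  refine ⟨N, hN, x, ⟨h0, fun k hk => ?_, fun k hk => ⟨?_, ?_⟩, ?_⟩, fun k hk => ?_, hend⟩
  · rw [hP]; exact (h1 k hk).extreme
  · rw [hP]; exact (hstep k hk).exposed
  · rw [hval, hval]; exact (hstep k hk).lt
  · rcases hend with h | ⟨d, h, _⟩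
    · exact Or.inl h
    · exact Or.inr ⟨d, h⟩
  · obtain ⟨e, t, he, ht, hx, hc⟩ := h2 k hk
    rw [hhist k hk.le, ← h3 k hk e t ht he hx, htight, htight, hx]
    exact inter_tight ht

theorem rule_on (m n : ℕ) : RuleOn m n := by
  classical
  intro 𝒞 N R hR hS
  refine ⟨rul N R, fun A b c hz v hv => ?_⟩
  obtain ⟨h, hhR, hs⟩ := hR (A, b, c) hz
  refine works_one (fun v hv => ?_) v hv
  have hv' := (vk_vert (A, b, c) v).2 hv
  have hX : h ∈ X0 R (vz (A, b, c) v) := mem_filter.2 ⟨hhR, exists_same hs hv'⟩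
  have hn := node0 R (vz (A, b, c) v)
  have hSl : Sl (N, X0 R (vz (A, b, c) v), x0 (vz (A, b, c) v)) (vz (A, b, c) v) :=
    hS _ _ _ (filter_subset _ _) ⟨h, hX⟩ hn
  obtain ⟨N', hN', x, hx0, hx1, hx2, hx3⟩ :=
    run_exists hs N R N [vz (A, b, c) v] _ _ v rfl hv' hX hn hSl
  have hhist : ∀ k, hist A (b, c) x k =
      [vz (A, b, c) v] ++ (List.range k).map fun j => vz (A, b, c) (x (j + 1)) := by
    intro k
    rw [hist, List.range_succ_eq_map, List.map_cons, List.map_map, hx0]
    rfl
  refine ⟨N', hN', x, hx0, ⟨fun k hk => ?_, fun k hk => ?_⟩, fun k hk e t ht he hxk => ?_, ?_⟩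
  · rcases hk.lt_or_eq with h1 | h1
    · exact (vk_vert (A, b, c) _).1 (hx1 k h1).1
    · rw [h1]; exact (vk_vert (A, b, c) _).1 hx2
  · obtain ⟨_, _, e, t, he, hc, _, ht, hy, _⟩ := hx1 k hk
    exact ⟨e, t, he, ht, hy, hc⟩
  · rw [hhist k]
    obtain ⟨_, _, e₁, t₁, he₁, _, hZ, ht₁, hy, _⟩ := hx1 k hk
    have h7 : e = (t₁ / t) • e₁ := by
      have : t • e = t₁ • e₁ := add_left_cancel (hxk.symm.trans hy)
      rw [div_eq_inv_mul, mul_smul, ← this, smul_smul, inv_mul_cancel₀ ht.ne', one_smul]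
    have h8 : e = e₁ := he₁.eq_of_smul he h7
    rw [h8]
    exact hZ.symm
  · rw [hhist N']
    exact hx3

end Pool.Agent.K4H92.ZO
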