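import Pool.Agent.K4H92.ZO.Core
set_option autoImplicit false

/-!
# Programs with switches: all rounds
-/

namespace Pool.Agent.K4H92.ZO

open Finset Pool.Agent.K4H92.LP Pool.Agent.K4H92.NO

variable {E : Type*} [AddCommGroup E] [Module ℝ E] {I : Type*} [Fintype I] [DecidableEq I]
  {κ : Type*} [Fintype κ] [DecidableEq κ] {Ω : Type*} [DecidableEq Ω]
  {ζ : κ → Bool → Finset I} {a : Ω → I → E →ₗ[ℝ] ℝ} {β : Ω → I → ℝ} {c : Ω → E →ₗ[ℝ] ℝ}
  {K : Finset I}

/-- one round: the walk to the target -/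
theorem walk {X : Finset Ω} {J : Finset κ} {u v : κ → Bool} {M : ℕ}
    (hr : ∀ h ∈ X, Reg ζ (a h) (β h) (c h) K) (huv : ∀ i ∉ J, v i = u i)
    (hbad : ∃ Y : Finset Ω, (∀ h ∈ X, ¬ Good ζ a β c K J u v h → h ∈ Y) ∧
      (Fintype.card κ + 2) * Y.card ≤ (Fintype.card κ + 1) * X.card)
    (hF : ∀ w' : Vw I, w'.2 ≠ ∅ →
      (Fintype.card κ + 2) * (F ζ a β c K X v w').card ≤ (Fintype.card κ + 1) * X.card)
    (hM : ∀ (Y : Finset Ω) (y : Ω → E) (w : Vw I), Y ⊆ X → Y.Nonempty → Node a β c K Y y w →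
      (Fintype.card κ + 2) * Y.card ≤ (Fintype.card κ + 1) * X.card → Sol a β c K M Y y w) :
    ∀ (d : ℕ) (Y : Finset Ω) (y : Ω → E) (w : Vw I), Y ⊆ X → Y.Nonempty → Node a β c K Y y w →
      SJ ζ J u ⊆ w.1 → (∃ u', Bit ζ w.1 u' ∧ (univ.filter fun i => u' i ≠ v i).card ≤ d) →
      Sol a β c K (d + M) Y y w := by
  classical
  intro d
  induction d with
  | zero =>
    intro Y y w hYX hY hn _ hu
    obtain ⟨u', hu', hd⟩ := hu
    by_cases hw : w.2 = ∅
    · exact Sol.opt _ _ _ _ hw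
    have huv' : u' = v := by
      funext i
      by_contra hne
      have h1 : i ∈ univ.filter fun i => u' i ≠ v i := mem_filter.2 ⟨mem_univ i, hne⟩
      have h2 := card_pos.2 ⟨i, h1⟩
      omega
    rw [zero_add]
    refine hM Y y w hYX hY hn ?_
    refine le_trans (Nat.mul_le_mul_left _ (card_le_card fun h hh => ?_)) (hF w hw)
    obtain ⟨h1, h2⟩ := hn h hh
    exact mem_F.2 ⟨hYX hh, y h, h1, h2, huv' ▸ hu'⟩
  | succ d ih =>
    intro Y y w hYX hY hn hSw hu
    obtain ⟨u', hu', hd⟩ := hu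
    by_cases hw : w.2 = ∅
    · exact Sol.opt _ _ _ _ hw
    by_cases huv' : u' = v
    · refine (hM Y y w hYX hY hn ?_).mono (by omega)
      refine le_trans (Nat.mul_le_mul_left _ (card_le_card fun h hh => ?_)) (hF w hw)
      obtain ⟨h1, h2⟩ := hn h hh
      exact mem_F.2 ⟨hYX hh, y h, h1, h2, huv' ▸ hu'⟩
    set J' : Finset κ := univ.filter fun i => u' i ≠ v i with hJ'
    have hJS : ∀ T : Finset I, SJ ζ J' v ⊆ T ↔ ∀ i, u' i = v i → ζ i (v i) ⊆ T := by
      intro T
      rw [SJ_sub]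
      simp [hJ']
    by_cases hZ : ∃ Z ∈ w.2, SJ ζ J' v ⊆ Z
    · -- a step towards the target
      obtain ⟨Z, hZw, hSZ⟩ := hZ
      have e : d + 1 + M = (d + M) + 1 := by ring
      rw [e]
      refine Sol.move _ _ _ _ Z hZw fun w'' hw'' => ?_
      refine ih _ _ _ (cls_sub_self.trans hYX) hw'' Node.next ?_ ?_
      · obtain ⟨h, hh⟩ := hw''
        obtain ⟨h1, h2, h3⟩ := of_cls hh
        rw [SJ_sub]
        intro i hi
        have h4 : u' i = v i := (hu'.eq (SJ_sub.1 hSw i hi)).trans (huv i hi).symm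
        have h5 : ζ i (v i) ⊆ Z := (hJS Z).1 hSZ i h4
        have h6 : w''.1 = tk (a h) (β h) K (nx a β c K Z y h) := by rw [← h3]; rfl
        rw [← huv i hi, h6]
        exact h5.trans h2.sub
      · obtain ⟨h, hh⟩ := hw''
        obtain ⟨h1, h2, h3⟩ := of_cls hh
        have h6 : w''.1 = tk (a h) (β h) K (nx a β c K Z y h) := by rw [← h3]; rfl
        obtain ⟨u'', hu''⟩ := (hr h (hYX h1)).bits _ h2.2.1
        refine ⟨u'', h6 ▸ hu'', ?_⟩
        have hkeep : ∀ i, u' i = v i → u'' i = v i := fun i hi =>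
          hu''.eq (((hJS Z).1 hSZ i hi).trans h2.sub)
        have hsub : (univ.filter fun i => u'' i ≠ v i) ⊆ J' := by
          intro i hi
          rw [hJ', mem_filter]
          exact ⟨mem_univ i, fun h7 => (mem_filter.1 hi).2 (hkeep i h7)⟩
        have hne : (univ.filter fun i => u'' i ≠ v i) ≠ J' := by
          intro heq
          have h8 : u'' = u' := by
            funext i
            by_cases hi : u' i = v i
            · rw [hkeep i hi, hi]
            · have h9 : i ∈ univ.filter fun i => u'' i ≠ v i := by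
                rw [heq, hJ', mem_filter]
                exact ⟨mem_univ i, hi⟩
              have h10 := (mem_filter.1 h9).2
              revert hi h10
              cases u'' i <;> cases u' i <;> cases v i <;> simp
          obtain ⟨g1, g2⟩ := hn h h1
          have g3 : w.1 = tk (a h) (β h) K (y h) := by rw [← g2]; rfl
          have g4 := (hr h (hYX h1)).inj (y h) (nx a β c K Z y h) u' g1 h2.2.1 (g3 ▸ hu')
            (h8 ▸ hu'')
          have g5 := h2.lt
          rw [← g4] at g5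
          exact lt_irrefl _ g5
        have := card_lt_card (lt_of_le_of_ne hsub hne)
        omega
    · -- stuck
      push Not at hZ
      obtain ⟨B, hB1, hB2⟩ := hbad
      refine (hM Y y w hYX hY hn ?_).mono (by omega)
      refine le_trans (Nat.mul_le_mul_left _ (card_le_card fun h hh => hB1 h (hYX hh) ?_)) hB2
      rintro ⟨z, hz, hzb, hbest⟩
      obtain ⟨g1, g2⟩ := hn h hh
      have g3 : w.1 = tk (a h) (β h) K (y h) := by rw [← g2]; rfl
      have g4 : w.2 = im (a h) (β h) (c h) K (y h) := by rw [← g2]; rfl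
      rcases hbest (y h) g1 (g3 ▸ hSw) (g4 ▸ hw) with h1 | h1
      · apply huv'
        rw [h1] at g3
        exact Bit.unique (g3 ▸ hu') hzb
      · have h2 : c h z ≤ c h (y h) := by
          refine best (J := J') (u := v) (ζ := ζ) g1 ?_ (fun Z hZ' => hZ Z (g4 ▸ hZ')) hz ?_
          · rw [hJS]
            intro i hi
            rw [← hi, ← g3]
            exact (hu' i).1
          · rw [hJS]
            intro i _
            exact (hzb i).1
        exact absurd h1 (not_lt.2 h2)

/-- all rounds -/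
theorem sol_rounds {R : Finset Ω} (hr : ∀ h ∈ R, Reg ζ (a h) (β h) (c h) K) (t : ℕ) :
    ∀ (X : Finset Ω) (x : Ω → E) (w : Vw I), X ⊆ R → X.Nonempty → Node a β c K X x w →
      (X.card : ℝ) * (1 - 1 / ((Fintype.card κ + 2 : ℕ) : ℝ)) ^ t < 1 →
      Sol a β c K (Fintype.card κ * t) X x w := by
  classical
  induction t with
  | zero =>
    intro X x w _ hX _ h
    rw [pow_zero, mul_one] at h
    have : 1 ≤ X.card := card_pos.2 hX
    have : (1 : ℝ) ≤ X.card := by exact_mod_cast this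
    linarith
  | succ t ih =>
    intro X x w hXR hX hn h
    obtain ⟨h₀, hh₀⟩ := hX
    obtain ⟨g1, g2⟩ := hn h₀ hh₀
    have g3 : w.1 = tk (a h₀) (β h₀) K (x h₀) := by rw [← g2]; rfl
    obtain ⟨u, hu⟩ := (hr h₀ (hXR hh₀)).bits _ g1
    rw [← g3] at hu
    obtain ⟨J, v, h1, h2, h3⟩ := target hn (fun h hh => hr h (hXR hh)) hu
    have e : Fintype.card κ * (t + 1) = Fintype.card κ + Fintype.card κ * t := by ring
    rw [e]
    refine walk (fun h hh => hr h (hXR hh)) h1 h2 h3 ?_ (Fintype.card κ) X x w subset_rfl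
      ⟨h₀, hh₀⟩ hn ?_ ⟨u, hu, card_le_univ _⟩
    · intro Y y w' hYX hY hn' hcard
      refine ih Y y w' (hYX.trans hXR) hY hn' ?_
      have hq : (0 : ℝ) < ((Fintype.card κ + 2 : ℕ) : ℝ) := by positivity
      have h4 : (Y.card : ℝ) ≤ X.card * (1 - 1 / ((Fintype.card κ + 2 : ℕ) : ℝ)) := by
        have h5 : ((Fintype.card κ : ℝ) + 2) * Y.card ≤ (Fintype.card κ + 1) * X.card := by
          exact_mod_cast hcard
        have h6 : (X.card : ℝ) * (1 - 1 / ((Fintype.card κ + 2 : ℕ) : ℝ)) =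
            ((Fintype.card κ + 1) * X.card) / ((Fintype.card κ + 2 : ℕ) : ℝ) := by
          field_simp
          push_cast
          ring
        rw [h6, le_div_iff₀ hq]
        push_cast
        linarith
      have h7 : (0 : ℝ) ≤ (1 - 1 / ((Fintype.card κ + 2 : ℕ) : ℝ)) ^ t := by
        apply pow_nonneg
        rw [sub_nonneg, div_le_one hq]
        push_cast
        have : (0 : ℝ) ≤ Fintype.card κ := Nat.cast_nonneg _
        linarith
      calc (Y.card : ℝ) * (1 - 1 / ((Fintype.card κ + 2 : ℕ) : ℝ)) ^ t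
          ≤ X.card * (1 - 1 / ((Fintype.card κ + 2 : ℕ) : ℝ)) *
            (1 - 1 / ((Fintype.card κ + 2 : ℕ) : ℝ)) ^ t := mul_le_mul_of_nonneg_right h4 h7
        _ = X.card * (1 - 1 / ((Fintype.card κ + 2 : ℕ) : ℝ)) ^ (t + 1) := by ring
        _ < 1 := h
    · rw [SJ_sub]
      intro i _
      exact (hu i).1

theorem sol_class {R : Finset Ω} {P : ℕ} (hP : 1 ≤ P) (hR : R.card ≤ 2 ^ P)
    (hr : ∀ h ∈ R, Reg ζ (a h) (β h) (c h) K) :
    ∀ (X : Finset Ω) (x : Ω → E) (w : Vw I), X ⊆ R → X.Nonempty → Node a β c K X x w →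
      Sol a β c K (Fintype.card κ * ((Fintype.card κ + 2) * P)) X x w := by
  intro X x w hXR hX hn
  refine sol_rounds hr _ X x w hXR hX hn ?_
  refine pow_bound hP (by omega) (Nat.cast_nonneg _) ?_
  have : X.card ≤ 2 ^ P := (card_le_card hXR).trans hR
  exact_mod_cast this

end Pool.Agent.K4H92.ZO
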