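import Pool.Agent.K4H92.NO.Final
import Pool.Agent.K4H92.NO.Rule
import Pool.Agent.K4H92.NO.Assemble
set_option autoImplicit false

/-!
# Statements of the pieces: rules for a class of linear programs
-/

namespace Pool.Agent.K4H92.ZO

open Finset Pool.Agent.K4H92.LP Pool.Agent.K4H92.NO

variable {m n : ℕ}

/-- piece A1 : representatives inside a class -/
def TypesOf (m n : ℕ) : Prop :=
  ∀ 𝒞 : Set (Data m n), ∃ R : Finset (Data m n), R.card ≤ 2 ^ ((m + n + 3) ^ 4) ∧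
    (∀ h ∈ R, h ∈ 𝒞) ∧ ∀ z ∈ 𝒞, ∃ z' ∈ R, SameType z z'

/-- `ρ` finds an optimal vertex or an unbounded improving edge within `N` pivots, for all programs in
the class `𝒞` -/
def WorksOn (m n : ℕ) (𝒞 : Set (Data m n)) (N : ℕ)
    (ρ : List (Finset (Name m n) × Set (Finset (Name m n))) → Finset (Name m n)) : Prop :=
  ∀ (A : Fin m → Fin n → ℝ) (b : Fin m → ℝ) (c : Fin n → ℝ), (A, b, c) ∈ 𝒞 →
    ∀ v ∈ (polyhedron A b).extremePoints ℝ,
    ∃ N' ≤ N, ∃ x, ImprovingPath A b c v N' x ∧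
      (∀ k < N', tightAt A b (x k) ∩ tightAt A b (x (k + 1)) = ρ (history A b c x k)) ∧
      ((∀ y ∈ polyhedron A b, val c y ≤ val c (x N')) ∨
        ∃ d, UnboundedEdge (polyhedron A b) c (x N') d ∧
          tightAt A b (x N') ∩ tightAt A b (x N' + d) = ρ (history A b c x N'))

open Classical in
/-- piece A2 : the rule for a class (compare `NO.RuleOfSol`, `NO.works_of_worksFor`) -/
def RuleOn (m n : ℕ) : Prop :=
  ∀ (𝒞 : Set (Data m n)) (N : ℕ) (R : Finset (Data m n)), (∀ z ∈ 𝒞, ∃ z' ∈ R, SameType z z') →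
    (∀ (X : Finset (Data m n)) (x : Data m n → Fin n → ℝ) (w : Vw (Ix m n)), X ⊆ R →
      X.Nonempty → Node (fa m n) (fb m n) (fc m n) univ X x w →
      Sol (fa m n) (fb m n) (fc m n) univ N X x w) →
    ∃ ρ, WorksOn m n 𝒞 N ρ

end Pool.Agent.K4H92.ZO
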