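import Pool.Agent.K4H92.ZO.Spec
set_option autoImplicit false

/-!
# Representatives inside a class
-/

namespace Pool.Agent.K4H92.ZO

open Finset Pool.Agent.K4H92.LP Pool.Agent.K4H92.NO

variable {m n : ℕ}

theorem SameType.symm' {z z' : Data m n} (h : SameType z z') : SameType z' z :=
  ⟨fun T => (h.1 T).symm, fun T hT => (h.2 T ((h.1 T).2 hT)).symm⟩

theorem SameType.trans' {z z' z'' : Data m n} (h : SameType z z') (h' : SameType z' z'') :
    SameType z z'' :=
  ⟨fun T => (h.1 T).trans (h'.1 T), fun T hT => (h.2 T hT).trans (h'.2 T ((h.1 T).1 hT))⟩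

theorem types_of (m n : ℕ) : TypesOf m n := by
  classical
  intro 𝒞
  obtain ⟨R, hR, hRt⟩ := exists_types m n
  let g : Data m n → Data m n := fun h =>
    if hh : ∃ z ∈ 𝒞, SameType z h then hh.choose else h
  have hg : ∀ h, (∃ z ∈ 𝒞, SameType z h) → g h ∈ 𝒞 ∧ SameType (g h) h := by
    intro h hh
    have h1 : g h = hh.choose := dif_pos hh
    rw [h1]
    exact hh.choose_spec
  refine ⟨(R.filter fun h => ∃ z ∈ 𝒞, SameType z h).image g, ?_, ?_, ?_⟩
  · exact (card_image_le.trans (card_filter_le _ _)).trans hR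
  · intro h hh
    obtain ⟨h', hh', rfl⟩ := mem_image.1 hh
    exact (hg h' (mem_filter.1 hh').2).1
  · intro z hz
    obtain ⟨h, hh, hs⟩ := hRt z
    have h1 : ∃ z ∈ 𝒞, SameType z h := ⟨z, hz, hs⟩
    exact ⟨g h, mem_image.2 ⟨h, mem_filter.2 ⟨hh, h1⟩, rfl⟩,
      SameType.trans' hs (SameType.symm' (hg h h1).2)⟩

end Pool.Agent.K4H92.ZO
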